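import Pool.Agent.W842.BV.Stms

set_option autoImplicit false

namespace Pool.Agent.W462.BV

open Finset Pool.Agent.W842.BV

theorem t_LINK : S_LINK := by
  intro n s H h3 hcod
  have h1 : 6 * H.card = ∑ e ∈ H, e.offDiag.card := by
    rw [Finset.sum_congr rfl (fun e he => by rw [Finset.offDiag_card, h3 e he] :
      ∀ e ∈ H, e.offDiag.card = 3 * 3 - 3)]
    simp [mul_comm]
  have h2 : ∀ e : Finset (Fin n), e.offDiag.card =
      ∑ b : Fin n, ∑ w : Fin n, if b ∈ e ∧ w ∈ e ∧ b ≠ w then 1 else 0 := by
    intro e
    rw [← Finset.sum_product', Finset.univ_product_univ, ← Finset.card_filter]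
    congr 1
    ext p
    simp [Finset.mem_offDiag]
  rw [h1, Finset.sum_congr rfl fun e _ => h2 e, Finset.sum_comm, Finset.mul_sum]
  refine Finset.sum_le_sum fun b _ => ?_
  rw [Finset.sum_comm]
  calc ∑ w : Fin n, ∑ e ∈ H, (if b ∈ e ∧ w ∈ e ∧ b ≠ w then 1 else 0)
      ≤ ∑ w : Fin n, if w ∈ nbr H b then s else 0 := by
        refine Finset.sum_le_sum fun w _ => ?_
        by_cases hw : w ∈ nbr H b
        · rw [if_pos hw]
          unfold nbr at hw
          rw [Finset.mem_filter] at hw
          rw [← Finset.card_filter]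
          refine le_trans (Finset.card_le_card ?_) (hcod b w (fun h => hw.2.1 h.symm)).le
          intro e he
          rw [Finset.mem_filter] at he ⊢
          exact ⟨he.1, he.2.1, he.2.2.1⟩
        · rw [if_neg hw]
          refine le_of_eq (Finset.sum_eq_zero fun e he => ?_)
          rw [if_neg]
          rintro ⟨hb, hw', hne⟩
          apply hw
          unfold nbr
          rw [Finset.mem_filter]
          exact ⟨Finset.mem_univ _, fun h => hne h.symm, e, he, hb, hw'⟩
    _ = s * (nbr H b).card := by
        rw [Finset.sum_ite_mem, Finset.univ_inter, Finset.sum_const, smul_eq_mul, mul_comm]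

end Pool.Agent.W462.BV
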